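import Mathlib

set_option autoImplicit false

/-!
Separation of discrete families in normal spaces: basic tools.
-/

namespace Run7.h943

open Set Topology Filter Function

variable {X : Type*} [TopologicalSpace X] {ι : Type*}

/-- A family of sets that expands to pairwise disjoint open sets. -/
def Sepd (F : ι → Set X) : Prop :=
  ∃ U : ι → Set X, (∀ i, IsOpen (U i)) ∧ (∀ i, F i ⊆ U i) ∧ Pairwise (Disjoint on U)

/-- A discrete family: every point has a neighbourhood meeting at most one member. -/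
def DiscFam (F : ι → Set X) : Prop :=
  ∀ x : X, ∃ V ∈ 𝓝 x, ∀ i j, (V ∩ F i).Nonempty → (V ∩ F j).Nonempty → i = j

theorem DiscFam.mono {F G : ι → Set X} (h : DiscFam F) (hG : ∀ i, G i ⊆ F i) : DiscFam G := by
  intro x
  obtain ⟨V, hV, h1⟩ := h x
  exact ⟨V, hV, fun i j hi hj => h1 i j (hi.mono (inter_subset_inter_right _ (hG i)))
    (hj.mono (inter_subset_inter_right _ (hG j)))⟩

theorem DiscFam.locallyFinite {F : ι → Set X} (h : DiscFam F) : LocallyFinite F := by
  intro x
  obtain ⟨V, hV, h1⟩ := h x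
  refine ⟨V, hV, ?_⟩
  apply Set.Subsingleton.finite
  intro i hi j hj
  rw [mem_ofPred_eq, inter_comm] at hi hj
  exact h1 i j hi hj

theorem DiscFam.disjoint {F : ι → Set X} (h : DiscFam F) : Pairwise (Disjoint on F) := by
  intro i j hij
  rw [onFun, Set.disjoint_left]
  intro x hi hj
  obtain ⟨V, hV, h1⟩ := h x
  exact hij (h1 i j ⟨x, mem_of_mem_nhds hV, hi⟩ ⟨x, mem_of_mem_nhds hV, hj⟩)

theorem discFam_of_locallyFinite {F : ι → Set X} (hF : LocallyFinite F)
    (hc : ∀ i, IsClosed (F i)) (hd : Pairwise (Disjoint on F)) : DiscFam F := by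
  intro x
  by_cases hx : ∃ i, x ∈ F i
  · obtain ⟨i, hi⟩ := hx
    have h1 : IsClosed (⋃ j : {j // j ≠ i}, F j.1) :=
      (hF.comp_injective Subtype.val_injective).isClosed_iUnion fun j => hc j.1
    refine ⟨(⋃ j : {j // j ≠ i}, F j.1)ᶜ, h1.isOpen_compl.mem_nhds ?_, ?_⟩
    · rw [mem_compl_iff, mem_iUnion]
      rintro ⟨⟨j, hj⟩, hxj⟩
      exact (Set.disjoint_left.1 (hd hj)) hxj hi
    · have h2 : ∀ j, ((⋃ j : {j // j ≠ i}, F j.1)ᶜ ∩ F j).Nonempty → j = i := by
        rintro j ⟨y, hy1, hy2⟩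
        by_contra hj
        exact hy1 (mem_iUnion.2 ⟨⟨j, hj⟩, hy2⟩)
      intro j k hj hk
      rw [h2 j hj, h2 k hk]
  · have h1 : IsClosed (⋃ j, F j) := hF.isClosed_iUnion hc
    refine ⟨(⋃ j, F j)ᶜ, h1.isOpen_compl.mem_nhds ?_, ?_⟩
    · rw [mem_compl_iff, mem_iUnion]
      exact hx
    · rintro j k ⟨y, hy1, hy2⟩ _
      exact absurd (mem_iUnion.2 ⟨j, hy2⟩) hy1

theorem DiscFam.isClosed_iUnion {F : ι → Set X} (h : DiscFam F) (hc : ∀ i, IsClosed (F i)) :
    IsClosed (⋃ i, F i) := h.locallyFinite.isClosed_iUnion hc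

/-- The union of all members but one is closed. -/
theorem DiscFam.isClosed_others {F : ι → Set X} (h : DiscFam F) (hc : ∀ i, IsClosed (F i))
    (i : ι) : IsClosed (⋃ j : {j // j ≠ i}, F j.1) :=
  (h.locallyFinite.comp_injective Subtype.val_injective).isClosed_iUnion fun j => hc j.1

theorem DiscFam.disjoint_others {F : ι → Set X} (h : DiscFam F) (i : ι) :
    Disjoint (F i) (⋃ j : {j // j ≠ i}, F j.1) := by
  rw [Set.disjoint_left]
  intro x hx hx'
  obtain ⟨⟨j, hj⟩, hxj⟩ := mem_iUnion.1 hx'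
  exact (Set.disjoint_left.1 (h.disjoint hj)) hxj hx

/-- In a normal space a discrete family of closed sets with a disjoint open expansion has a
discrete open expansion. -/
theorem Sepd.discrete [NormalSpace X] {F : ι → Set X} (h : Sepd F) (hF : DiscFam F)
    (hc : ∀ i, IsClosed (F i)) :
    ∃ U : ι → Set X, (∀ i, IsOpen (U i)) ∧ (∀ i, F i ⊆ U i) ∧ DiscFam U := by
  obtain ⟨U, hUo, hUF, hUd⟩ := h
  obtain ⟨W, hWo, hW1, hW2⟩ := normal_exists_closure_subset (hF.isClosed_iUnion hc)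
    (isOpen_iUnion hUo) (iUnion_mono hUF)
  refine ⟨fun i => U i ∩ W, fun i => (hUo i).inter hWo,
    fun i => subset_inter (hUF i) ((subset_iUnion F i).trans hW1), ?_⟩
  intro x
  by_cases hx : x ∈ closure W
  · obtain ⟨i, hi⟩ := mem_iUnion.1 (hW2 hx)
    refine ⟨U i, (hUo i).mem_nhds hi, ?_⟩
    have h1 : ∀ j, (U i ∩ (U j ∩ W)).Nonempty → j = i := by
      rintro j ⟨y, hy1, hy2, -⟩
      by_contra hj
      exact (Set.disjoint_left.1 (hUd hj)) hy2 hy1
    intro j k hj hk
    rw [h1 j hj, h1 k hk]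
  · refine ⟨(closure W)ᶜ, isClosed_closure.isOpen_compl.mem_nhds hx, ?_⟩
    rintro j k ⟨y, hy1, -, hy2⟩ _
    exact absurd (subset_closure hy2) hy1

/-- The `σ`-lemma: if each member of a discrete family of closed sets is the union of countably
many closed pieces and each layer of pieces is separated, then the family is separated. -/
theorem sepd_of_layers [NormalSpace X] {F : ι → Set X} (hF : DiscFam F)
    (hc : ∀ i, IsClosed (F i)) (K : ℕ → ι → Set X) (hKc : ∀ m i, IsClosed (K m i))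
    (hKF : ∀ m i, K m i ⊆ F i) (hcov : ∀ i, F i ⊆ ⋃ m, K m i) (hS : ∀ m, Sepd (K m)) :
    Sepd F := by
  have hKD : ∀ m, DiscFam (K m) := fun m => hF.mono (hKF m)
  have h1 : ∀ m, ∃ U : ι → Set X, (∀ i, IsOpen (U i)) ∧ (∀ i, K m i ⊆ U i) ∧ DiscFam U :=
    fun m => (hS m).discrete (hKD m) (hKc m)
  choose U hUo hKU hUD using h1
  have h2 : ∀ m i, ∃ R : Set X, IsOpen R ∧ K m i ⊆ R ∧
      closure R ⊆ U m i \ (⋃ j : {j // j ≠ i}, F j.1) := by
    intro m i
    apply normal_exists_closure_subset (hKc m i) ((hUo m i).sdiff (hF.isClosed_others hc i))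
    intro x hx
    exact ⟨hKU m i hx, fun h => (Set.disjoint_left.1 (hF.disjoint_others i)) (hKF m i hx) h⟩
  choose R hRo hKR hRcl using h2
  have hRU : ∀ m i, R m i ⊆ U m i := fun m i x hx => (hRcl m i (subset_closure hx)).1
  -- the closed sets to be removed
  let T : ℕ → ι → Set X := fun m i => ⋃ j : {j // j ≠ i}, closure (R m j.1)
  have hTc : ∀ m i, IsClosed (T m i) := by
    intro m i
    apply LocallyFinite.isClosed_iUnion _ fun _ => isClosed_closure
    have h3 : LocallyFinite (R m) := (hUD m).locallyFinite.subset (hRU m)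
    exact h3.closure.comp_injective Subtype.val_injective
  have hTF : ∀ m i, Disjoint (F i) (T m i) := by
    intro m i
    rw [Set.disjoint_left]
    intro x hx hxT
    obtain ⟨⟨j, hj⟩, hxj⟩ := mem_iUnion.1 hxT
    exact (hRcl m j hxj).2 (mem_iUnion.2 ⟨⟨i, fun h => hj h.symm⟩, hx⟩)
  refine ⟨fun i => ⋃ m, (R m i \ ⋃ l : Fin (m + 1), T l i), ?_, ?_, ?_⟩
  · intro i
    refine isOpen_iUnion fun m => (hRo m i).sdiff ?_
    exact isClosed_iUnion_of_finite fun l => hTc _ _
  · intro i x hx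
    obtain ⟨m, hm⟩ := mem_iUnion.1 (hcov i hx)
    refine mem_iUnion.2 ⟨m, hKR m i hm, ?_⟩
    intro h
    obtain ⟨l, hl⟩ := mem_iUnion.1 h
    exact (Set.disjoint_left.1 (hTF l i)) hx hl
  · intro i j hij
    rw [onFun, Set.disjoint_left]
    intro x hxi hxj
    obtain ⟨m, hm1, hm2⟩ := mem_iUnion.1 hxi
    obtain ⟨m', hm1', hm2'⟩ := mem_iUnion.1 hxj
    rcases le_total m m' with h | h
    · apply hm2'
      refine mem_iUnion.2 ⟨⟨m, by omega⟩, mem_iUnion.2 ⟨⟨i, hij⟩, subset_closure hm1⟩⟩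
    · apply hm2
      refine mem_iUnion.2 ⟨⟨m', by omega⟩, mem_iUnion.2 ⟨⟨j, fun h => hij h.symm⟩,
        subset_closure hm1'⟩⟩

/-- Splitting the index set into countably many classes. -/
theorem sepd_of_classes [NormalSpace X] {F : ι → Set X} (hF : DiscFam F)
    (hc : ∀ i, IsClosed (F i)) (I : ℕ → Set ι) (hI : ∀ i, ∃ m, i ∈ I m)
    (hS : ∀ m, Sepd (fun i => {x | x ∈ F i ∧ i ∈ I m})) : Sepd F := by
  refine sepd_of_layers hF hc (fun m i => {x | x ∈ F i ∧ i ∈ I m}) ?_ ?_ ?_ hS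
  · intro m i
    by_cases h : i ∈ I m
    · have : {x | x ∈ F i ∧ i ∈ I m} = F i := by ext x; simp [h]
      rw [this]
      exact hc i
    · have : {x | x ∈ F i ∧ i ∈ I m} = ∅ := by ext x; simp [h]
      rw [this]
      exact isClosed_empty
  · intro m i x hx
    exact hx.1
  · intro i x hx
    obtain ⟨m, hm⟩ := hI i
    exact mem_iUnion.2 ⟨m, hx, hm⟩

/-- Countable discrete families of closed sets are separated in a normal space. -/
theorem sepd_of_countable [NormalSpace X] [Countable ι] {F : ι → Set X} (hF : DiscFam F)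
    (hc : ∀ i, IsClosed (F i)) : Sepd F := by
  obtain ⟨e, he⟩ := exists_injective_nat ι
  refine sepd_of_classes hF hc (fun m => {i | e i = m}) (fun i => ⟨e i, rfl⟩) ?_
  intro m
  refine ⟨fun i => if e i = m then univ else ∅, ?_, ?_, ?_⟩
  · intro i
    by_cases h : e i = m
    · simp [h]
    · simp [h]
  · rintro i x ⟨-, hx⟩
    have hx : e i = m := hx
    simp [hx]
  · intro i j hij
    rw [onFun, Set.disjoint_left]
    intro x hx hx'
    by_cases h : e i = m
    · by_cases h' : e j = m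
      · exact hij (he (h.trans h'.symm))
      · simp [h'] at hx'
    · simp [h] at hx

/-- A discrete family of closed sets with a locally finite open expansion is separated. -/
theorem sepd_of_locallyFinite [NormalSpace X] {F : ι → Set X} (hF : DiscFam F)
    (hc : ∀ i, IsClosed (F i)) (Q : ι → Set X) (hQo : ∀ i, IsOpen (Q i))
    (hFQ : ∀ i, F i ⊆ Q i) (hQ : LocallyFinite Q) : Sepd F := by
  have h2 : ∀ i, ∃ R : Set X, IsOpen R ∧ F i ⊆ R ∧
      closure R ⊆ Q i \ (⋃ j : {j // j ≠ i}, F j.1) := by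
    intro i
    apply normal_exists_closure_subset (hc i) ((hQo i).sdiff (hF.isClosed_others hc i))
    intro x hx
    exact ⟨hFQ i hx, fun h => (Set.disjoint_left.1 (hF.disjoint_others i)) hx h⟩
  choose R hRo hFR hRcl using h2
  have hRQ : ∀ i, R i ⊆ Q i := fun i x hx => (hRcl i (subset_closure hx)).1
  have hRl : LocallyFinite R := hQ.subset hRQ
  have hTc : ∀ i, IsClosed (⋃ j : {j // j ≠ i}, closure (R j.1)) := by
    intro i
    exact (hRl.closure.comp_injective Subtype.val_injective).isClosed_iUnion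
      fun _ => isClosed_closure
  refine ⟨fun i => R i \ (⋃ j : {j // j ≠ i}, closure (R j.1)),
    fun i => (hRo i).sdiff (hTc i), ?_, ?_⟩
  · intro i x hx
    refine ⟨hFR i hx, fun h => ?_⟩
    obtain ⟨⟨j, hj⟩, hxj⟩ := mem_iUnion.1 h
    exact (hRcl j hxj).2 (mem_iUnion.2 ⟨⟨i, fun h => hj h.symm⟩, hx⟩)
  · intro i j hij
    rw [onFun, Set.disjoint_left]
    intro x hxi hxj
    exact hxj.2 (mem_iUnion.2 ⟨⟨i, hij⟩, subset_closure hxi.1⟩)

end Run7.h943
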