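import Mathlib
import Pool.Agent.Run7.h943.Sep

set_option autoImplicit false

/-!
Confinement: in locally connected normal spaces a discrete family of closed sets is separated as
soon as countably many open neighbourhoods of its union have components meeting only countably many
members. Consequences for families whose union is a `G_δ` or sits in suitable closed `G_δ` sets.
-/

namespace Run7.h943

open Set Topology Filter Function

variable {X : Type*} [TopologicalSpace X] {ι : Type*}

/-- A preconnected set meeting an open set `O` and missing the frontier of `O` lies in `O`. -/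
theorem subset_of_frontier {K O : Set X} (hO : IsOpen O) (hK : IsPreconnected K)
    (hne : (K ∩ O).Nonempty) (hf : Disjoint K (frontier O)) : K ⊆ O := by
  have h1 : K ⊆ O ∪ (closure O)ᶜ := by
    intro x hx
    by_cases h : x ∈ O
    · exact Or.inl h
    · right
      intro hc
      refine (Set.disjoint_left.1 hf) hx ⟨hc, ?_⟩
      rw [hO.interior_eq]
      exact h
  refine IsPreconnected.subset_left_of_subset_union hO isClosed_closure.isOpen_compl ?_ h1 hne hK
  rw [Set.disjoint_left]
  intro x hx hx'
  exact hx' (subset_closure hx)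

/-- Main confinement lemma. -/
theorem sepd_of_confined [NormalSpace X] [LocallyConnectedSpace X] {F : ι → Set X}
    (hF : DiscFam F) (hc : ∀ i, IsClosed (F i)) (G : ℕ → Set X) (hG : ∀ n, IsOpen (G n))
    (hFG : ∀ n i, F i ⊆ G n)
    (hconf : ∀ i, ∀ x ∈ F i, ∃ n,
      {j | (connectedComponentIn (G n) x ∩ F j).Nonempty}.Countable) : Sepd F := by
  -- the good points for `n`
  let A : ℕ → Set X := fun n =>
    {x | {j | (connectedComponentIn (G n) x ∩ F j).Nonempty}.Countable}
  refine sepd_of_layers hF hc (fun n i => F i ∩ A n) ?_ (fun n i => inter_subset_left) ?_ ?_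
  · intro n i
    rw [← isOpen_compl_iff, isOpen_iff_mem_nhds]
    intro x hx
    by_cases hxF : x ∈ F i
    · have hxA : x ∉ A n := fun h => hx ⟨hxF, h⟩
      have h1 : connectedComponentIn (G n) x ∈ 𝓝 x :=
        (hG n).connectedComponentIn.mem_nhds (mem_connectedComponentIn (hFG n i hxF))
      filter_upwards [h1] with y hy hy'
      apply hxA
      have h2 := connectedComponentIn_eq hy
      change {j | (connectedComponentIn (G n) x ∩ F j).Nonempty}.Countable
      rw [h2]
      exact hy'.2
    · filter_upwards [(hc i).isOpen_compl.mem_nhds hxF] with y hy hy'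
      exact hy hy'.1
  · intro i x hx
    obtain ⟨n, hn⟩ := hconf i x hx
    exact mem_iUnion.2 ⟨n, hx, hn⟩
  · intro n
    -- separate the countably many members met by a good component
    have h1 : ∀ C : Set X, ∃ W : ι → Set X, {j | (C ∩ F j).Nonempty}.Countable →
        (∀ i, IsOpen (W i)) ∧ (∀ i, (C ∩ F i).Nonempty → F i ⊆ W i) ∧
          Pairwise (Disjoint on W) := by
      intro C
      by_cases hC : {j | (C ∩ F j).Nonempty}.Countable
      · haveI : Countable {j | (C ∩ F j).Nonempty} := hC.to_subtype
        have h2 : DiscFam (fun j : {j | (C ∩ F j).Nonempty} => F j.1) := by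
          intro x
          obtain ⟨V, hV, h3⟩ := hF x
          exact ⟨V, hV, fun i j hi hj => Subtype.ext (h3 i.1 j.1 hi hj)⟩
        obtain ⟨U, hUo, hUF, hUd⟩ := sepd_of_countable h2 (fun j => hc j.1)
        classical
        refine ⟨fun i => if h : (C ∩ F i).Nonempty then U ⟨i, h⟩ else ∅, fun _ => ⟨?_, ?_, ?_⟩⟩
        · intro i
          by_cases h : (C ∩ F i).Nonempty
          · simp only [h, dite_true]
            exact hUo _
          · simp only [h, dite_false]
            exact isOpen_empty
        · intro i h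
          simp only [h, dite_true]
          exact hUF ⟨i, h⟩
        · intro i j hij
          rw [onFun, Set.disjoint_left]
          intro x hx hx'
          by_cases h : (C ∩ F i).Nonempty
          · by_cases h' : (C ∩ F j).Nonempty
            · simp only [h, dite_true] at hx
              simp only [h', dite_true] at hx'
              exact (Set.disjoint_left.1 (hUd (i := ⟨i, h⟩) (j := ⟨j, h'⟩)
                (fun hh => hij (congrArg Subtype.val hh)))) hx hx'
            · simp only [h', dite_false] at hx'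
              exact hx'
          · simp only [h, dite_false] at hx
            exact hx
      · exact ⟨fun _ => ∅, fun h => absurd h hC⟩
    choose W hW using h1
    refine ⟨fun i => ⋃ x ∈ (⋃ k, F k) ∩ A n, connectedComponentIn (G n) x ∩
      W (connectedComponentIn (G n) x) i, ?_, ?_, ?_⟩
    · intro i
      refine isOpen_biUnion fun x hx => (hG n).connectedComponentIn.inter ?_
      exact (hW _ hx.2).1 i
    · rintro i x ⟨hx, hxA⟩
      have hxm : x ∈ connectedComponentIn (G n) x := mem_connectedComponentIn (hFG n i hx)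
      refine mem_iUnion₂.2 ⟨x, ⟨mem_iUnion.2 ⟨i, hx⟩, hxA⟩, hxm, ?_⟩
      exact (hW _ hxA).2.1 i ⟨x, hxm, hx⟩ hx
    · intro i j hij
      rw [onFun, Set.disjoint_left]
      intro y hy hy'
      obtain ⟨x, ⟨hx, hxA⟩, hyC, hyW⟩ := mem_iUnion₂.1 hy
      obtain ⟨x', ⟨hx', hxA'⟩, hyC', hyW'⟩ := mem_iUnion₂.1 hy'
      have h2 : connectedComponentIn (G n) x = connectedComponentIn (G n) x' :=
        (connectedComponentIn_eq hyC).trans (connectedComponentIn_eq hyC').symm
      rw [← h2] at hyW'
      exact (Set.disjoint_left.1 ((hW _ hxA).2.2 hij)) hyW hyW'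

/-- A closed `G_δ` set in a normal space has a good sequence of open neighbourhoods. -/
theorem exists_seq [NormalSpace X] {Z : Set X} (hZ : IsClosed Z) (hG : IsGδ Z) :
    ∃ G : ℕ → Set X, (∀ n, IsOpen (G n)) ∧ (∀ n, Z ⊆ G n) ∧ Antitone G ∧
      ⋂ n, closure (G n) = Z := by
  obtain ⟨V, hVo, hV⟩ := hG.eq_iInter_nat
  have h1 : ∀ n, ∃ u, IsOpen u ∧ Z ⊆ u ∧ closure u ⊆ V n := by
    intro n
    apply normal_exists_closure_subset hZ (hVo n)
    rw [hV]
    exact iInter_subset V n
  choose H hHo hZH hHV using h1
  refine ⟨fun n => ⋂ m ∈ Finset.range (n + 1), H m, ?_, ?_, ?_, ?_⟩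
  · intro n
    exact isOpen_biInter_finset fun m _ => hHo m
  · intro n
    exact subset_iInter₂ fun m _ => hZH m
  · intro n k hnk
    refine biInter_subset_biInter_left ?_
    intro m hm
    simp only [Finset.coe_range, mem_Iio] at hm ⊢
    omega
  · apply Subset.antisymm
    · intro x hx
      rw [hV]
      refine mem_iInter.2 fun n => hHV n ?_
      refine closure_mono ?_ (mem_iInter.1 hx n)
      exact biInter_subset_of_mem (by simp)
    · refine subset_iInter fun n => ?_
      refine Subset.trans ?_ subset_closure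
      exact subset_iInter₂ fun m _ => hZH m

/-- Compact sets off a closed `G_δ` set are missed by the closures of the neighbourhoods. -/
theorem exists_disjoint_closure {Z L : Set X} {G : ℕ → Set X} (hA : Antitone G)
    (hGZ : ⋂ n, closure (G n) = Z) (hL : IsCompact L) (hLZ : Disjoint L Z) :
    ∃ n, Disjoint L (closure (G n)) := by
  obtain ⟨n, hn⟩ := hL.elim_directed_family_closed (fun n => closure (G n))
    (fun _ => isClosed_closure) (by rw [hGZ]; exact hLZ.inter_eq)
    (directed_of_isDirected_le fun n m h => closure_mono (hA h))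
  exact ⟨n, Set.disjoint_iff_inter_eq_empty.2 hn⟩

/-- A compact component of a closed subset of a locally compact normal Hausdorff space can be
surrounded. -/
theorem exists_surround [T2Space X] [NormalSpace X] [LocallyCompactSpace X] {Z : Set X}
    (hZ : IsClosed Z) {x : X} (hx : x ∈ Z) (hQ : IsCompact (connectedComponentIn Z x)) :
    ∃ O : Set X, IsOpen O ∧ x ∈ O ∧ IsCompact (closure O) ∧ Disjoint (frontier O) Z := by
  obtain ⟨V, hVo, hQV, -, hVc⟩ := exists_open_between_and_isCompact_closure hQ isOpen_univ
    (subset_univ _)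
  let N : Set X := closure V ∩ Z
  have hNc : IsCompact N := hVc.inter_right hZ
  haveI : CompactSpace N := isCompact_iff_compactSpace.1 hNc
  have hxQ : x ∈ connectedComponentIn Z x := mem_connectedComponentIn hx
  have hxN : x ∈ N := ⟨subset_closure (hQV hxQ), hx⟩
  have h1 : connectedComponentIn N x ⊆ connectedComponentIn Z x :=
    connectedComponentIn_mono x inter_subset_right
  -- a clopen subset of `N` missing the frontier of `V`
  let B : Set N := Subtype.val ⁻¹' (frontier V)
  have hBc : IsCompact B := (isClosed_frontier.preimage continuous_subtype_val).isCompact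
  have h2 : B ∩ connectedComponent (⟨x, hxN⟩ : N) = ∅ := by
    rw [Set.eq_empty_iff_forall_notMem]
    rintro z ⟨hz1, hz2⟩
    have h3 : z.1 ∈ connectedComponentIn N x := by
      rw [connectedComponentIn_eq_image hxN]
      exact ⟨z, hz2, rfl⟩
    have h4 : z.1 ∈ V := hQV (h1 h3)
    have h5 : z.1 ∈ frontier V := hz1
    rw [hVo.frontier_eq] at h5
    exact h5.2 h4
  rw [connectedComponent_eq_iInter_isClopen] at h2
  obtain ⟨⟨P, hPcl, hxP⟩, hBP⟩ : ∃ s : {s : Set N // IsClopen s ∧ (⟨x, hxN⟩ : N) ∈ s},
      B ∩ s.1 = ∅ := by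
    haveI : Nonempty {s : Set N // IsClopen s ∧ (⟨x, hxN⟩ : N) ∈ s} :=
      ⟨⟨univ, isClopen_univ, mem_univ _⟩⟩
    apply hBc.elim_directed_family_closed
      (fun s : {s : Set N // IsClopen s ∧ (⟨x, hxN⟩ : N) ∈ s} => s.1) (fun s => s.2.1.1) h2
    rintro ⟨s, hs1, hs2⟩ ⟨t, ht1, ht2⟩
    exact ⟨⟨s ∩ t, hs1.inter ht1, hs2, ht2⟩, inter_subset_left, inter_subset_right⟩
  have hPB : ∀ z ∈ P, z ∉ B := by
    intro z hz hzB
    have : z ∈ B ∩ P := ⟨hzB, hz⟩
    rw [hBP] at this
    exact this
  -- its image
  let P' : Set X := Subtype.val '' P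
  have hP'c : IsCompact P' := (hPcl.1.isCompact).image continuous_subtype_val
  have hZP' : IsClosed (Z \ P') := by
    have h3 : Z \ P' = (Z ∩ Vᶜ) ∪ Subtype.val '' Pᶜ := by
      ext z
      constructor
      · rintro ⟨hz, hzP⟩
        by_cases hzV : z ∈ V
        · right
          have hzN : z ∈ N := ⟨subset_closure hzV, hz⟩
          exact ⟨⟨z, hzN⟩, fun h => hzP ⟨⟨z, hzN⟩, h, rfl⟩, rfl⟩
        · exact Or.inl ⟨hz, hzV⟩
      · rintro (⟨hz, hzV⟩ | ⟨w, hw, rfl⟩)
        · refine ⟨hz, ?_⟩
          rintro ⟨w, hw, rfl⟩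
          apply hPB w hw
          change w.1 ∈ frontier V
          rw [hVo.frontier_eq]
          exact ⟨w.2.1, hzV⟩
        · refine ⟨w.2.2, ?_⟩
          rintro ⟨w', hw', h⟩
          exact hw ((Subtype.ext h : w' = w) ▸ hw')
    rw [h3]
    refine (hZ.inter hVo.isClosed_compl).union ?_
    exact ((hPcl.compl.1.isCompact).image continuous_subtype_val).isClosed
  obtain ⟨O, hOo, hPO, hOcl, hOc⟩ := exists_open_between_and_isCompact_closure hP'c
    hZP'.isOpen_compl (by
      rintro z hz ⟨_, hz'⟩
      exact hz' hz)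
  refine ⟨O, hOo, hPO ⟨⟨x, hxN⟩, hxP, rfl⟩, hOc, ?_⟩
  rw [Set.disjoint_left]
  intro z hz hzZ
  rw [hOo.frontier_eq] at hz
  have h3 : z ∈ P' := by
    by_contra h
    exact hOcl hz.1 ⟨hzZ, h⟩
  exact hz.2 (hPO h3)

/-- A discrete family of closed sets whose union lies in a closed `G_δ` set with compact components
at the points of the family is separated. -/
theorem sepd_of_gδ [T2Space X] [NormalSpace X] [LocallyCompactSpace X] [LocallyConnectedSpace X]
    {F : ι → Set X} (hF : DiscFam F) (hc : ∀ i, IsClosed (F i)) {Z : Set X} (hZ : IsClosed Z)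
    (hG : IsGδ Z) (hFZ : ∀ i, F i ⊆ Z)
    (hcomp : ∀ i, ∀ x ∈ F i, IsCompact (connectedComponentIn Z x)) : Sepd F := by
  obtain ⟨G, hGo, hZG, hGa, hGZ⟩ := exists_seq hZ hG
  refine sepd_of_confined hF hc G hGo (fun n i => (hFZ i).trans (hZG n)) ?_
  intro i x hx
  obtain ⟨O, hOo, hxO, hOc, hOZ⟩ := exists_surround hZ (hFZ i hx) (hcomp i x hx)
  obtain ⟨n, hn⟩ := exists_disjoint_closure hGa hGZ
    (hOc.of_isClosed_subset isClosed_frontier frontier_subset_closure) hOZ
  refine ⟨n, ?_⟩
  have hxG : x ∈ G n := hZG n (hFZ i hx)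
  have h1 : connectedComponentIn (G n) x ⊆ O := by
    apply subset_of_frontier hOo isPreconnected_connectedComponentIn
      ⟨x, mem_connectedComponentIn hxG, hxO⟩
    rw [Set.disjoint_left]
    intro z hz hzf
    exact (Set.disjoint_left.1 hn) hzf (subset_closure (connectedComponentIn_subset _ _ hz))
  refine (hF.locallyFinite.finite_nonempty_inter_compact hOc).countable.mono ?_
  rintro j ⟨z, hz1, hz2⟩
  exact ⟨z, hz2, subset_closure (h1 hz1)⟩

/-- A discrete family of compact sets whose union is a `G_δ` set is separated. -/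
theorem sepd_of_compact_gδ [T2Space X] [NormalSpace X] [LocallyCompactSpace X]
    [LocallyConnectedSpace X] {F : ι → Set X} (hF : DiscFam F) (hc : ∀ i, IsCompact (F i))
    (hG : IsGδ (⋃ i, F i)) : Sepd F := by
  have hcl : ∀ i, IsClosed (F i) := fun i => (hc i).isClosed
  have hZ : IsClosed (⋃ i, F i) := hF.isClosed_iUnion hcl
  obtain ⟨G, hGo, hZG, hGa, hGZ⟩ := exists_seq hZ hG
  refine sepd_of_confined hF hcl G hGo (fun n i => (subset_iUnion F i).trans (hZG n)) ?_
  intro i x hx
  obtain ⟨O, hOo, hiO, hOcl, hOc⟩ := exists_open_between_and_isCompact_closure (hc i)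
    (hF.isClosed_others hcl i).isOpen_compl (by
      intro z hz hz'
      exact (Set.disjoint_left.1 (hF.disjoint_others i)) hz hz')
  have hdis : Disjoint (frontier O) (⋃ i, F i) := by
    rw [Set.disjoint_left]
    intro z hz hz'
    rw [hOo.frontier_eq] at hz
    obtain ⟨j, hj⟩ := mem_iUnion.1 hz'
    by_cases hij : j = i
    · subst hij
      exact hz.2 (hiO hj)
    · exact hOcl hz.1 (mem_iUnion.2 ⟨⟨j, hij⟩, hj⟩)
  obtain ⟨n, hn⟩ := exists_disjoint_closure hGa hGZ
    (hOc.of_isClosed_subset isClosed_frontier frontier_subset_closure) hdis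
  refine ⟨n, ?_⟩
  have hxG : x ∈ G n := hZG n (mem_iUnion.2 ⟨i, hx⟩)
  have h1 : connectedComponentIn (G n) x ⊆ O := by
    apply subset_of_frontier hOo isPreconnected_connectedComponentIn
      ⟨x, mem_connectedComponentIn hxG, hiO hx⟩
    rw [Set.disjoint_left]
    intro z hz hzf
    exact (Set.disjoint_left.1 hn) hzf (subset_closure (connectedComponentIn_subset _ _ hz))
  refine (hF.locallyFinite.finite_nonempty_inter_compact hOc).countable.mono ?_
  rintro j ⟨z, hz1, hz2⟩
  exact ⟨z, hz2, subset_closure (h1 hz1)⟩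

end Run7.h943
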