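import Mathlib
import Pool.Agent.Run7.h943.Confine

set_option autoImplicit false

/-!
Displacement: in a completely normal space a closed set which is moved off itself by homeomorphisms
converging to the identity is a `G_δ` set. Hence discrete families of compact sets which are
eventually displaced are separated.
-/

namespace Run7.h943

open Set Topology Filter Function

variable {X : Type*} [TopologicalSpace X] {ι : Type*}

/-- A closed set displaced by homeomorphisms converging to the identity is a `G_δ` set. -/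
theorem isGδ_of_displaced [CompletelyNormalSpace X] {E : Set X} (hE : IsClosed E)
    (f : ℕ → X ≃ₜ X) (hf : ∀ x, Tendsto (fun n => f n x) atTop (𝓝 x))
    (hf' : ∀ x, Tendsto (fun p : ℕ × X => (f p.1).symm p.2) (atTop ×ˢ 𝓝 x) (𝓝 x))
    (k : ℕ) (hd : ∀ n, k ≤ n → Disjoint (f n '' E) E) : IsGδ E := by
  have hfE : ∀ n, IsClosed (f n '' E) := fun n => (f n).isClosedMap E hE
  -- Urysohn functions
  have h1 : ∀ n, ∃ g : C(X, ℝ), k ≤ n → EqOn g 0 E ∧ EqOn g 1 (f n '' E) := by
    intro n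
    by_cases hn : k ≤ n
    · obtain ⟨g, hg0, hg1, -⟩ := exists_continuous_zero_one_of_isClosed hE (hfE n) (hd n hn).symm
      exact ⟨g, fun _ => ⟨hg0, hg1⟩⟩
    · exact ⟨0, fun h => absurd h hn⟩
  choose g hg using h1
  let Sig : Set X := ⋂ n, ⋂ (_ : k ≤ n), {x | g n x = 0}
  have hSc : ∀ n, IsClosed {x | g n x = 0} := fun n => isClosed_eq (g n).continuous continuous_const
  have hSigc : IsClosed Sig := isClosed_iInter fun n => isClosed_iInter fun _ => hSc n
  have hSigG : IsGδ Sig := by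
    refine IsGδ.iInter fun n => IsGδ.iInter fun _ => ?_
    have h2 : {x | g n x = 0} = g n ⁻¹' {0} := by ext; simp
    rw [h2]
    exact (isClosed_singleton.isGδ).preimage (g n).continuous
  have hESig : E ⊆ Sig := by
    intro x hx
    refine mem_iInter.2 fun n => mem_iInter.2 fun hn => ?_
    exact (hg n hn).1 hx
  let B : Set X := ⋃ n, ⋃ (_ : k ≤ n), f n '' E
  have hSB : Disjoint Sig B := by
    rw [Set.disjoint_left]
    intro x hx hxB
    obtain ⟨n, hn⟩ := mem_iUnion.1 hxB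
    obtain ⟨hkn, hxn⟩ := mem_iUnion.1 hn
    have h2 : g n x = 0 := mem_iInter.1 (mem_iInter.1 hx n) hkn
    have h3 : g n x = 1 := (hg n hkn).2 hxn
    rw [h2] at h3
    exact zero_ne_one h3
  have hBcl : closure B ⊆ B ∪ E := by
    intro x hx
    by_contra hcon
    rw [mem_union, not_or] at hcon
    obtain ⟨hxB, hxE⟩ := hcon
    have h2 := hf' x (hE.isOpen_compl.mem_nhds hxE)
    rw [mem_map, mem_prod_iff] at h2
    obtain ⟨t1, ht1, t2, ht2, h3⟩ := h2
    obtain ⟨N, hN⟩ := mem_atTop_sets.1 ht1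
    have h4 : IsClosed (⋃ n : Fin N, ⋃ (_ : k ≤ n.1), f n.1 '' E) :=
      isClosed_iUnion_of_finite fun n => isClosed_iUnion_of_finite fun _ => hfE n.1
    have h5 : x ∉ ⋃ n : Fin N, ⋃ (_ : k ≤ n.1), f n.1 '' E := by
      intro h
      obtain ⟨n, hn⟩ := mem_iUnion.1 h
      obtain ⟨hkn, hxn⟩ := mem_iUnion.1 hn
      exact hxB (mem_iUnion.2 ⟨n.1, mem_iUnion.2 ⟨hkn, hxn⟩⟩)
    obtain ⟨y, ⟨hy1, hy2⟩, hyB⟩ := mem_closure_iff_nhds.1 hx _
      (inter_mem ht2 (h4.isOpen_compl.mem_nhds h5))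
    obtain ⟨n, hn⟩ := mem_iUnion.1 hyB
    obtain ⟨hkn, hyn⟩ := mem_iUnion.1 hn
    by_cases hnN : n < N
    · exact hy2 (mem_iUnion.2 ⟨⟨n, hnN⟩, mem_iUnion.2 ⟨hkn, hyn⟩⟩)
    · obtain ⟨z, hz, rfl⟩ := hyn
      have h6 : (n, f n z) ∈ t1 ×ˢ t2 := ⟨hN n (not_lt.1 hnN), hy1⟩
      have h7 := h3 h6
      rw [mem_preimage, (f n).symm_apply_apply] at h7
      exact h7 hz
  let A : Set X := Sig \ E
  have hsep : SeparatedNhds A B := by
    rw [separatedNhds_iff_disjoint]
    apply CompletelyNormalSpace.completely_normal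
    · rw [Set.disjoint_left]
      intro x hx hxB
      exact (Set.disjoint_left.1 hSB) (closure_minimal sdiff_subset hSigc hx) hxB
    · rw [Set.disjoint_left]
      intro x hx hxB
      rcases hBcl hxB with h | h
      · exact (Set.disjoint_left.1 hSB) hx.1 h
      · exact hx.2 h
  obtain ⟨U, W, hUo, hWo, hAU, hBW, hUW⟩ := hsep
  have hUB : Disjoint (closure U) B := by
    refine Disjoint.mono_right hBW ?_
    exact hUW.closure_left hWo
  have hE2 : E = Sig ∩ ⋂ n, ⋂ (_ : k ≤ n), (f n ⁻¹' closure U)ᶜ := by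
    apply Subset.antisymm
    · intro x hx
      refine ⟨hESig hx, mem_iInter.2 fun n => mem_iInter.2 fun hn hxU => ?_⟩
      exact (Set.disjoint_left.1 hUB) hxU (mem_iUnion.2 ⟨n, mem_iUnion.2 ⟨hn, ⟨x, hx, rfl⟩⟩⟩)
    · rintro x ⟨hx, hx2⟩
      by_contra hxE
      have h2 : ∀ᶠ n in atTop, f n x ∈ U := hf x (hUo.mem_nhds (hAU ⟨hx, hxE⟩))
      obtain ⟨n, hn1, hn2⟩ := (h2.and (eventually_ge_atTop k)).exists
      exact mem_iInter.1 (mem_iInter.1 hx2 n) hn2 (subset_closure hn1)
  rw [hE2]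
  refine hSigG.inter (IsGδ.iInter fun n => IsGδ.iInter fun _ => ?_)
  exact (isClosed_closure.preimage (f n).continuous).isOpen_compl.isGδ

/-- The image of a compact set under maps converging continuously to the identity is eventually in
any given neighbourhood. -/
theorem eventually_image_subset {f : ℕ → X → X}
    (hf : ∀ x, Tendsto (fun p : ℕ × X => f p.1 p.2) (atTop ×ˢ 𝓝 x) (𝓝 x))
    {K O : Set X} (hK : IsCompact K) (hO : IsOpen O) (hKO : K ⊆ O) :
    ∀ᶠ n in atTop, f n '' K ⊆ O := by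
  refine hK.induction_on (p := fun K => ∀ᶠ n in atTop, f n '' K ⊆ O) ?_ ?_ ?_ ?_
  · simp
  · intro s t hst h
    filter_upwards [h] with n hn
    exact (image_mono hst).trans hn
  · intro s t hs ht
    filter_upwards [hs, ht] with n hn hn'
    rw [image_union]
    exact union_subset hn hn'
  · intro x hx
    have h2 := hf x (hO.mem_nhds (hKO hx))
    rw [mem_map, mem_prod_iff] at h2
    obtain ⟨t1, ht1, t2, ht2, h3⟩ := h2
    refine ⟨t2, mem_nhdsWithin_of_mem_nhds ht2, ?_⟩
    filter_upwards [ht1] with n hn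
    rintro _ ⟨y, hy, rfl⟩
    exact h3 (show (n, y) ∈ t1 ×ˢ t2 from ⟨hn, hy⟩)

/-- Discrete families of compact sets which are eventually displaced by one of countably many
sequences of homeomorphisms converging to the identity are separated. -/
theorem sepd_of_displaced [T5Space X] [LocallyCompactSpace X] [LocallyConnectedSpace X]
    {K : ι → Set X} (hK : DiscFam K) (hc : ∀ i, IsCompact (K i))
    (f : ℕ → ℕ → X ≃ₜ X)
    (hf : ∀ m x, Tendsto (fun p : ℕ × X => f m p.1 p.2) (atTop ×ˢ 𝓝 x) (𝓝 x))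
    (hf' : ∀ m x, Tendsto (fun p : ℕ × X => (f m p.1).symm p.2) (atTop ×ˢ 𝓝 x) (𝓝 x))
    (hd : ∀ i, ∃ m, ∀ᶠ n in atTop, Disjoint (f m n '' K i) (K i)) : Sepd K := by
  have hcl : ∀ i, IsClosed (K i) := fun i => (hc i).isClosed
  refine sepd_of_classes hK hcl
    (fun c => {i | ∀ n, (Nat.unpair c).2 ≤ n →
      Disjoint (f (Nat.unpair c).1 n '' K i) (⋃ j, K j)}) ?_ ?_
  · intro i
    obtain ⟨m, hm⟩ := hd i
    have h1 := eventually_image_subset (f := fun n => f m n) (hf m) (hc i)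
      (hK.isClosed_others hcl i).isOpen_compl
      (fun x hx hx' => (Set.disjoint_left.1 (hK.disjoint_others i)) hx hx')
    obtain ⟨N, hN⟩ := eventually_atTop.1 (hm.and h1)
    refine ⟨Nat.pair m N, ?_⟩
    intro n hn
    rw [Nat.unpair_pair] at hn ⊢
    obtain ⟨h2, h3⟩ := hN n hn
    rw [Set.disjoint_left]
    intro x hx hx'
    obtain ⟨j, hj⟩ := mem_iUnion.1 hx'
    by_cases hij : j = i
    · subst hij
      exact (Set.disjoint_left.1 h2) hx hj
    · exact h3 hx (mem_iUnion.2 ⟨⟨j, hij⟩, hj⟩)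
  · intro c
    set I : Set ι := {i | ∀ n, (Nat.unpair c).2 ≤ n →
      Disjoint (f (Nat.unpair c).1 n '' K i) (⋃ j, K j)} with hI
    have hsub : ∀ i, {x | x ∈ K i ∧ i ∈ I} ⊆ K i := fun i x hx => hx.1
    have hKI : DiscFam (fun i => {x | x ∈ K i ∧ i ∈ I}) := hK.mono hsub
    have hcI : ∀ i, IsCompact {x | x ∈ K i ∧ i ∈ I} := by
      intro i
      by_cases h : i ∈ I
      · have : {x | x ∈ K i ∧ i ∈ I} = K i := by ext x; simp [h]
        rw [this]
        exact hc i
      · have : {x | x ∈ K i ∧ i ∈ I} = ∅ := by ext x; simp [h]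
        rw [this]
        exact isCompact_empty
    apply sepd_of_compact_gδ hKI hcI
    have hE : IsClosed (⋃ i, {x | x ∈ K i ∧ i ∈ I}) :=
      hKI.isClosed_iUnion fun i => (hcI i).isClosed
    refine isGδ_of_displaced hE (f (Nat.unpair c).1) (fun x => ?_) (hf' _) (Nat.unpair c).2 ?_
    · have h1 : Tendsto (fun n : ℕ => (n, x)) atTop (atTop ×ˢ 𝓝 x) :=
        tendsto_id.prodMk tendsto_const_nhds
      exact (hf _ x).comp h1
    · intro n hn
      rw [Set.disjoint_left]
      rintro _ ⟨x, hx, rfl⟩ hx'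
      obtain ⟨i, hi, hiI⟩ := mem_iUnion.1 hx
      obtain ⟨j, hj, -⟩ := mem_iUnion.1 hx'
      exact (Set.disjoint_left.1 (hiI n hn)) ⟨x, hi, rfl⟩ (mem_iUnion.2 ⟨j, hj⟩)

end Run7.h943
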