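import Mathlib
import Pool.Agent.Run7.h943.Displace

set_option autoImplicit false

/-!
Flows on completely normal spaces: local sections, local finiteness, countable colourings.
-/

namespace Run7.h943

open Set Topology Filter Function MeasureTheory

variable {X : Type*} [TopologicalSpace X] {ι : Type*}

/-- A set which can be pushed in short time onto a compact set displaced by the flow. -/
def Good (φ : Flow ℝ X) (K : Set X) : Prop :=
  ∃ r : ℝ, 0 < r ∧ r ≤ 1 ∧ ∃ S : Set X, IsCompact S ∧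
    (∀ t, 0 < t → t ≤ r → Disjoint (φ t '' S) S) ∧ ∀ y ∈ K, ∃ t, |t| ≤ r ∧ φ t y ∈ S

theorem Good.mono {φ : Flow ℝ X} {K L : Set X} (h : Good φ K) (hL : L ⊆ K) : Good φ L := by
  obtain ⟨r, hr0, hr1, S, hS, hd, hK⟩ := h
  exact ⟨r, hr0, hr1, S, hS, hd, fun y hy => hK y (hL hy)⟩

theorem good_empty (φ : Flow ℝ X) : Good φ ∅ :=
  ⟨1, one_pos, le_rfl, ∅, isCompact_empty, fun _ _ _ => by simp, fun y hy => absurd hy (by simp)⟩

/-- Strict monotonicity of the orbit average of a Urysohn function. -/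
theorem average_lt {G : ℝ → ℝ} (hG : Continuous G) {η ρ : ℝ}
    (h0 : ∀ s, |s| ≤ ρ → G s ≤ 1 / 4) (h1 : ∀ s, |s| ≤ ρ → 3 / 4 ≤ G (η + s)) {a b : ℝ}
    (ha : -ρ ≤ a) (hab : a < b) (hb : b ≤ ρ) :
    (∫ s in a..(η + a), G s) < ∫ s in b..(η + b), G s := by
  have hI : ∀ u v, IntervalIntegrable G volume u v := fun u v => hG.intervalIntegrable u v
  have h2 : (∫ s in b..(η + b), G s) - (∫ s in a..(η + a), G s) =
      (∫ s in (η + a)..(η + b), G s) - ∫ s in a..b, G s := by
    rw [intervalIntegral.integral_interval_sub_interval_comm (hI _ _) (hI _ _) (hI _ _),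
      intervalIntegral.integral_symm a b, intervalIntegral.integral_symm (η + a) (η + b)]
    ring
  have h3 : (∫ s in a..b, G s) ≤ (b - a) * (1 / 4) := by
    have := intervalIntegral.integral_mono_on hab.le (hI a b)
      (intervalIntegrable_const (c := (1 / 4 : ℝ))) (fun s hs => h0 s (abs_le.2
        ⟨by linarith [hs.1], by linarith [hs.2]⟩))
    simpa using this
  have h4 : (b - a) * (3 / 4) ≤ ∫ s in (η + a)..(η + b), G s := by
    have := intervalIntegral.integral_mono_on (by linarith : η + a ≤ η + b)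
      (intervalIntegrable_const (c := (3 / 4 : ℝ))) (hI (η + a) (η + b)) (fun s hs => by
        have := h1 (s - η) (abs_le.2 ⟨by linarith [hs.1], by linarith [hs.2]⟩)
        rwa [add_sub_cancel] at this)
    rw [intervalIntegral.integral_const, smul_eq_mul] at this
    linarith
  nlinarith

/-- Every point which is not a fixed point of a flow has a good compact neighbourhood. -/
theorem exists_good [T4Space X] [LocallyCompactSpace X] (φ : Flow ℝ X) (x : X)
    (hx : ∃ t, φ t x ≠ x) : ∃ K ∈ 𝓝 x, IsCompact K ∧ Good φ K := by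
  -- a positive time moving `x`
  obtain ⟨η, hη, hηx⟩ : ∃ η : ℝ, 0 < η ∧ φ η x ≠ x := by
    obtain ⟨t, ht⟩ := hx
    rcases lt_trichotomy t 0 with h | h | h
    · refine ⟨-t, by linarith, fun h2 => ht ?_⟩
      have h3 : φ t (φ (-t) x) = x := by rw [← φ.map_add]; simp
      rw [h2] at h3
      exact h3
    · subst h
      exact absurd (φ.map_zero_apply x) ht
    · exact ⟨t, h, ht⟩
  obtain ⟨g, hg0, hg1, -⟩ := exists_continuous_zero_one_of_isClosed
    (isClosed_singleton (x := x)) (isClosed_singleton (x := φ η x)) (by simpa using hηx.symm)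
  have hg0 : g x = 0 := hg0 rfl
  have hg1 : g (φ η x) = 1 := hg1 rfl
  have hφc : Continuous fun p : ℝ × X => φ p.1 p.2 := φ.cont'
  have hGc : ∀ y, Continuous fun s => g (φ s y) := fun y =>
    g.continuous.comp (hφc.comp (by fun_prop : Continuous fun s : ℝ => (s, y)))
  -- uniform estimates near `x`
  obtain ⟨ρ, hρ, hρ2, V, hV, hV0, hV1⟩ : ∃ ρ : ℝ, 0 < ρ ∧ ρ ≤ 2 ∧ ∃ V ∈ 𝓝 x,
      (∀ y ∈ V, ∀ s, |s| ≤ ρ → g (φ s y) ≤ 1 / 4) ∧
      (∀ y ∈ V, ∀ s, |s| ≤ ρ → 3 / 4 ≤ g (φ (η + s) y)) := by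
    have c1 : Continuous fun p : ℝ × X => g (φ p.1 p.2) := g.continuous.comp hφc
    have c2 : Continuous fun p : ℝ × X => g (φ (η + p.1) p.2) :=
      c1.comp (by fun_prop : Continuous fun p : ℝ × X => (η + p.1, p.2))
    have e1 : ∀ᶠ p : ℝ × X in 𝓝 ((0 : ℝ), x), g (φ p.1 p.2) < 1 / 4 := by
      apply c1.continuousAt.eventually_lt continuousAt_const
      change g (φ 0 x) < 1 / 4
      rw [φ.map_zero_apply, hg0]
      norm_num
    have e2 : ∀ᶠ p : ℝ × X in 𝓝 ((0 : ℝ), x), 3 / 4 < g (φ (η + p.1) p.2) := by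
      apply continuousAt_const.eventually_lt c2.continuousAt
      change 3 / 4 < g (φ (η + 0) x)
      rw [add_zero, hg1]
      norm_num
    have e3 := e1.and e2
    rw [Filter.Eventually, mem_nhds_prod_iff] at e3
    obtain ⟨u, hu, V, hV, h⟩ := e3
    obtain ⟨ε, hε, hεu⟩ := Metric.mem_nhds_iff.1 hu
    refine ⟨min (ε / 2) 2, by positivity, min_le_right _ _, V, hV, ?_, ?_⟩
    · intro y hy s hs
      have h1 : s ∈ u := hεu (by
        rw [Metric.mem_ball, Real.dist_eq, sub_zero]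
        linarith [min_le_left (ε / 2) 2])
      exact (h (show (s, y) ∈ u ×ˢ V from ⟨h1, hy⟩)).1.le
    · intro y hy s hs
      have h1 : s ∈ u := hεu (by
        rw [Metric.mem_ball, Real.dist_eq, sub_zero]
        linarith [min_le_left (ε / 2) 2])
      exact (h (show (s, y) ∈ u ×ˢ V from ⟨h1, hy⟩)).2.le
  -- the averaged function
  let h : X → ℝ := fun y => ∫ s in (0 : ℝ)..η, g (φ s y)
  have hhc : Continuous h := by
    apply intervalIntegral.continuous_parametric_intervalIntegral_of_continuous'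
    exact g.continuous.comp (hφc.comp (continuous_snd.prodMk continuous_fst))
  have hh : ∀ y t, h (φ t y) = ∫ s in t..(η + t), g (φ s y) := by
    intro y t
    have h2 : ∀ s, g (φ s (φ t y)) = g (φ (s + t) y) := by
      intro s
      rw [φ.map_add]
    change (∫ s in (0 : ℝ)..η, g (φ s (φ t y))) = _
    simp_rw [h2]
    rw [intervalIntegral.integral_comp_add_right (fun s => g (φ s y)) t, zero_add]
  have hmono : ∀ y ∈ V, ∀ a b, -ρ ≤ a → a < b → b ≤ ρ → h (φ a y) < h (φ b y) := by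
    intro y hy a b ha hab hb
    rw [hh, hh]
    exact average_lt (hGc y) (hV0 y hy) (hV1 y hy) ha hab hb
  -- the compact neighbourhood
  have hxV : x ∈ V := mem_of_mem_nhds hV
  have hφt : ∀ t : ℝ, Continuous fun y => φ t y := fun t => φ.continuous_toFun t
  have e1 : ∀ᶠ y in 𝓝 x, h (φ (-(ρ / 2)) y) < h x := by
    apply (hhc.comp (hφt _)).continuousAt.eventually_lt continuousAt_const
    have := hmono x hxV (-(ρ / 2)) 0 (by linarith) (by linarith) (by linarith)
    rwa [φ.map_zero_apply] at this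
  have e2 : ∀ᶠ y in 𝓝 x, h x < h (φ (ρ / 2) y) := by
    apply continuousAt_const.eventually_lt (hhc.comp (hφt _)).continuousAt
    have := hmono x hxV 0 (ρ / 2) (by linarith) (by linarith) (by linarith)
    rwa [φ.map_zero_apply] at this
  obtain ⟨K, hK, hKs, hKc⟩ := LocallyCompactSpace.local_compact_nhds x _
    (inter_mem hV (e1.and e2))
  refine ⟨K, hK, hKc, ρ / 2, by linarith, by linarith,
    (fun p : ℝ × X => φ p.1 p.2) '' (Icc (-(ρ / 2)) (ρ / 2) ×ˢ K) ∩ {z | h z = h x}, ?_, ?_, ?_⟩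
  · exact ((isCompact_Icc.prod hKc).image hφc).inter_right (isClosed_eq hhc continuous_const)
  · intro t ht0 ht1
    rw [Set.disjoint_left]
    rintro _ ⟨z, ⟨⟨⟨s, y⟩, ⟨hs, hy⟩, rfl⟩, hz⟩, rfl⟩ ⟨-, hz'⟩
    have hz : h (φ s y) = h x := hz
    have hz' : h (φ t (φ s y)) = h x := hz'
    have hs : s ∈ Icc (-(ρ / 2)) (ρ / 2) := hs
    rw [← φ.map_add] at hz'
    have := hmono y (hKs hy).1 s (t + s) (by linarith [hs.1]) (by linarith) (by linarith [hs.2])
    rw [hz, hz'] at this
    exact lt_irrefl _ this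
  · intro y hy
    have h2 := intermediate_value_Icc (show -(ρ / 2) ≤ ρ / 2 by linarith)
      (f := fun s => h (φ s y))
      ((hhc.comp (hφc.comp (by fun_prop : Continuous fun s : ℝ => (s, y)))).continuousOn)
    obtain ⟨s, hs, hs2⟩ := h2 ⟨(hKs hy).2.1.le, (hKs hy).2.2.le⟩
    exact ⟨s, abs_le.2 hs, ⟨(s, y), ⟨hs, hy⟩, rfl⟩, hs2⟩

/-- The set of points reached from `A` within time one. -/
def sweep (φ : Flow ℝ X) (A : Set X) : Set X := {z | ∃ t ∈ Icc (-1 : ℝ) 1, ∃ a ∈ A, φ t a = z}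

theorem sweep_eq (φ : Flow ℝ X) (A : Set X) :
    sweep φ A = (fun p : ℝ × X => φ p.1 p.2) '' (Icc (-1 : ℝ) 1 ×ˢ A) := by
  ext z
  constructor
  · rintro ⟨t, ht, a, ha, rfl⟩
    exact ⟨(t, a), ⟨ht, ha⟩, rfl⟩
  · rintro ⟨⟨t, a⟩, ⟨ht, ha⟩, rfl⟩
    exact ⟨t, ht, a, ha, rfl⟩

theorem isCompact_sweep (φ : Flow ℝ X) {A : Set X} (hA : IsCompact A) :
    IsCompact (sweep φ A) := by
  rw [sweep_eq]
  exact (isCompact_Icc.prod hA).image φ.cont'

theorem isOpen_sweep (φ : Flow ℝ X) {A : Set X} (hA : IsOpen A) : IsOpen (sweep φ A) := by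
  have : sweep φ A = ⋃ t ∈ Icc (-1 : ℝ) 1, φ.toHomeomorph t '' A := by
    ext z
    constructor
    · rintro ⟨t, ht, a, ha, rfl⟩
      exact mem_iUnion₂.2 ⟨t, ht, a, ha, rfl⟩
    · intro hz
      obtain ⟨t, ht, a, ha, rfl⟩ := mem_iUnion₂.1 hz
      exact ⟨t, ht, a, ha, rfl⟩
  rw [this]
  exact isOpen_biUnion fun t _ => (φ.toHomeomorph t).isOpenMap A hA

/-- Sweeping preserves local finiteness. -/
theorem locallyFinite_sweep (φ : Flow ℝ X) {A : ι → Set X} (hA : LocallyFinite A) :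
    LocallyFinite (fun i => sweep φ (A i)) := by
  intro y
  have h1 : ∃ N ∈ 𝓝 y, {i | ∃ t ∈ Icc (-1 : ℝ) 1, ∃ z ∈ N, φ t z ∈ A i}.Finite := by
    refine isCompact_Icc.induction_on (s := Icc (-1 : ℝ) 1)
      (p := fun T => ∃ N ∈ 𝓝 y, {i | ∃ t ∈ T, ∃ z ∈ N, φ t z ∈ A i}.Finite) ?_ ?_ ?_ ?_
    · exact ⟨univ, univ_mem, by simp⟩
    · rintro s t hst ⟨N, hN, h⟩
      refine ⟨N, hN, h.subset ?_⟩
      rintro i ⟨u, hu, hi⟩
      exact ⟨u, hst hu, hi⟩
    · rintro s t ⟨N, hN, h⟩ ⟨N', hN', h'⟩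
      refine ⟨N ∩ N', inter_mem hN hN', (h.union h').subset ?_⟩
      rintro i ⟨u, hu | hu, z, hz, hi⟩
      · exact Or.inl ⟨u, hu, z, hz.1, hi⟩
      · exact Or.inr ⟨u, hu, z, hz.2, hi⟩
    · intro t _
      obtain ⟨W, hW, hWf⟩ := hA (φ t y)
      have hc : ContinuousAt (fun p : ℝ × X => φ p.1 p.2) (t, y) := φ.cont'.continuousAt
      have h2 := hc hW
      rw [mem_map, mem_nhds_prod_iff] at h2
      obtain ⟨T, hT, N, hN, h3⟩ := h2
      refine ⟨T, mem_nhdsWithin_of_mem_nhds hT, N, hN, hWf.subset ?_⟩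
      rintro i ⟨u, hu, z, hz, hi⟩
      exact ⟨φ u z, hi, h3 (show (u, z) ∈ T ×ˢ N from ⟨hu, hz⟩)⟩
  obtain ⟨N, hN, hf⟩ := h1
  refine ⟨N, hN, hf.subset ?_⟩
  rintro i ⟨z, ⟨t, ht, a, ha, rfl⟩, hz⟩
  refine ⟨-t, ⟨by linarith [ht.2], by linarith [ht.1]⟩, φ t a, hz, ?_⟩
  have h3 : φ (-t) (φ t a) = a := by rw [← φ.map_add]; simp
  rw [h3]
  exact ha

/-- Countable colouring of a graph with countable degrees. -/
theorem exists_coloring {R : ι → ι → Prop} (hR : ∀ i, {j | R i j}.Countable)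
    (hs : ∀ i j, R i j → R j i) : ∃ c : ι → ℕ, ∀ i j, R i j → c i = c j → i = j := by
  have hcl : ∀ i, {j | Relation.ReflTransGen R i j}.Countable := by
    intro i
    let L : ℕ → Set ι := fun n => Nat.rec {i} (fun _ s => ⋃ j ∈ s, {k | R j k}) n
    have hL : ∀ n, (L n).Countable := by
      intro n
      induction n with
      | zero => exact countable_singleton i
      | succ n ih => exact ih.biUnion fun j _ => hR j
    refine (countable_iUnion hL).mono ?_
    have h5 : ∀ j, Relation.ReflTransGen R i j → j ∈ ⋃ n, L n := by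
      intro j hj
      induction hj with
      | refl => exact mem_iUnion.2 ⟨0, rfl⟩
      | tail _ h ih =>
        obtain ⟨n, hn⟩ := mem_iUnion.1 ih
        exact mem_iUnion.2 ⟨n + 1, mem_iUnion₂.2 ⟨_, hn, h⟩⟩
    exact fun j hj => h5 j hj
  let s : Setoid ι :=
    { r := Relation.ReflTransGen R
      iseqv := ⟨fun _ => Relation.ReflTransGen.refl, fun h => by
        induction h with
        | refl => exact Relation.ReflTransGen.refl
        | tail _ h ih => exact Relation.ReflTransGen.head (hs _ _ h) ih,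
        fun h h' => h.trans h'⟩ }
  have h1 : ∀ q : Quotient s, ∃ f : ι → ℕ, InjOn f {j | (Quotient.mk s j) = q} := by
    intro q
    apply countable_iff_exists_injOn.1
    refine (hcl q.out).mono ?_
    intro j hj
    have h2 : Quotient.mk s q.out = Quotient.mk s j := by
      rw [Quotient.out_eq]
      exact hj.symm
    exact Quotient.exact h2
  choose e he using h1
  refine ⟨fun i => e (Quotient.mk s i) i, ?_⟩
  intro i j hij hc
  have h2 : Quotient.mk s i = Quotient.mk s j :=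
    Quotient.sound (show Relation.ReflTransGen R i j from Relation.ReflTransGen.single hij)
  have hc : e (Quotient.mk s i) i = e (Quotient.mk s j) j := hc
  rw [h2] at hc
  exact he (Quotient.mk s j) h2 rfl hc

/-- Discrete families of good compact sets are separated. -/
theorem sepd_of_good [T5Space X] [LocallyCompactSpace X] [LocallyConnectedSpace X]
    (φ : Flow ℝ X) {K : ι → Set X} (hK : DiscFam K) (hc : ∀ i, IsCompact (K i))
    (hg : ∀ i, Good φ (K i)) : Sepd K := by
  choose r hr0 hr1 S hSc hSd hSK using hg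
  let S' : ι → Set X := fun i => S i ∩ sweep φ (K i)
  have hS'c : ∀ i, IsCompact (S' i) := fun i => (hSc i).inter (isCompact_sweep φ (hc i))
  have hS'l : LocallyFinite S' :=
    (locallyFinite_sweep φ hK.locallyFinite).subset fun i => inter_subset_right
  obtain ⟨c, hcol⟩ := exists_coloring (R := fun i j => (S' i ∩ S' j).Nonempty)
    (fun i => by
      have h1 := (hS'l.finite_nonempty_inter_compact (hS'c i)).countable
      refine h1.mono ?_
      rintro j ⟨z, hz1, hz2⟩
      exact ⟨z, hz2, hz1⟩)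
    (fun i j ⟨z, hz1, hz2⟩ => ⟨z, hz2, hz1⟩)
  refine sepd_of_classes hK (fun i => (hc i).isClosed) (fun m => {i | c i = m})
    (fun i => ⟨c i, rfl⟩) ?_
  intro m
  -- the sections of one colour
  let T : ι → Set X := fun i => {x | x ∈ S' i ∧ c i = m}
  have hTS : ∀ i, T i ⊆ S' i := fun i x hx => hx.1
  have hTc : ∀ i, IsCompact (T i) := by
    intro i
    by_cases h : c i = m
    · have : T i = S' i := by ext x; simp [T, h]
      rw [this]
      exact hS'c i
    · have : T i = ∅ := by ext x; simp [T, h]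
      rw [this]
      exact isCompact_empty
  have hTD : DiscFam T := by
    apply discFam_of_locallyFinite (hS'l.subset hTS) fun i => (hTc i).isClosed
    intro i j hij
    rw [onFun, Set.disjoint_left]
    rintro x ⟨hx, hxi⟩ ⟨hx', hxj⟩
    exact hij (hcol i j ⟨x, hx, hx'⟩ (hxi.trans hxj.symm))
  have hφc : Continuous fun p : ℝ × X => φ p.1 p.2 := φ.cont'
  have ht0 : Tendsto (fun n : ℕ => 1 / ((n : ℝ) + 1)) atTop (𝓝 0) :=
    tendsto_one_div_add_atTop_nhds_zero_nat
  have hTsep : Sepd T := by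
    refine sepd_of_displaced hTD hTc (fun _ n => φ.toHomeomorph (1 / ((n : ℝ) + 1))) ?_ ?_ ?_
    · intro _ x
      have h1 : Tendsto (fun p : ℕ × X => (1 / ((p.1 : ℝ) + 1), p.2)) (atTop ×ˢ 𝓝 x)
          (𝓝 ((0 : ℝ), x)) := by
        rw [nhds_prod_eq]
        exact (ht0.comp tendsto_fst).prodMk tendsto_snd
      have h2 := (hφc.tendsto (0, x)).comp h1
      simp only [φ.map_zero_apply] at h2
      exact h2
    · intro _ x
      have h1 : Tendsto (fun p : ℕ × X => (-(1 / ((p.1 : ℝ) + 1)), p.2)) (atTop ×ˢ 𝓝 x)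
          (𝓝 ((0 : ℝ), x)) := by
        rw [nhds_prod_eq]
        refine Tendsto.prodMk ?_ tendsto_snd
        have := (ht0.comp (tendsto_fst (f := (atTop : Filter ℕ)) (g := 𝓝 x))).neg
        simpa using this
      have h2 := (hφc.tendsto (0, x)).comp h1
      simp only [φ.map_zero_apply] at h2
      exact h2
    · intro i
      refine ⟨0, ?_⟩
      have h1 : ∀ᶠ n : ℕ in atTop, 1 / ((n : ℝ) + 1) < r i :=
        (tendsto_order.1 ht0).2 _ (hr0 i)
      filter_upwards [h1] with n hn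
      have h2 := hSd i (1 / ((n : ℝ) + 1)) (by positivity) hn.le
      refine h2.mono (image_mono ?_) ?_
      · exact fun x hx => hx.1.1
      · exact fun x hx => hx.1.1
  obtain ⟨O, hOo, hTO, hOD⟩ := hTsep.discrete hTD fun i => (hTc i).isClosed
  refine sepd_of_locallyFinite (hK.mono fun i x hx => hx.1) ?_ (fun i => sweep φ (O i))
    (fun i => isOpen_sweep φ (hOo i)) ?_ (locallyFinite_sweep φ hOD.locallyFinite)
  · intro i
    by_cases h : c i = m
    · have : {x | x ∈ K i ∧ i ∈ {i | c i = m}} = K i := by ext x; simp [h]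
      rw [this]
      exact (hc i).isClosed
    · have : {x | x ∈ K i ∧ i ∈ {i | c i = m}} = ∅ := by ext x; simp [h]
      rw [this]
      exact isClosed_empty
  · rintro i y ⟨hy, hi⟩
    obtain ⟨t, ht, htS⟩ := hSK i y hy
    have ht1 : t ∈ Icc (-1 : ℝ) 1 := abs_le.1 (ht.trans (hr1 i))
    have h1 : φ t y ∈ T i := ⟨⟨htS, t, ht1, y, hy, rfl⟩, hi⟩
    refine ⟨-t, ⟨by linarith [ht1.2], by linarith [ht1.1]⟩, φ t y, hTO i h1, ?_⟩
    rw [← φ.map_add]
    simp

end Run7.h943
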