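import Mathlib
import Pool.Agent.Run7.h943.FlowSec

set_option autoImplicit false

/-!
Discrete families of closed Lindelöf sets in hereditarily normal, locally compact, locally
connected spaces covered, up to a set of countable extent, by countably many open sets with flows
without fixed points.
-/

namespace Run7.h943

open Set Topology Filter Function

variable {X : Type*} [TopologicalSpace X] {ι : Type*}

/-- Separation in an open subspace gives separation in the whole space. -/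
theorem Sepd.of_open {U : Set X} (hU : IsOpen U) {F : ι → Set X} (hF : ∀ i, F i ⊆ U)
    (h : Sepd (fun i => ((↑) ⁻¹' F i : Set U))) : Sepd F := by
  obtain ⟨W, hWo, hFW, hWd⟩ := h
  refine ⟨fun i => Subtype.val '' W i, fun i => hU.isOpenMap_subtype_val _ (hWo i), ?_, ?_⟩
  · intro i x hx
    exact ⟨⟨x, hF i hx⟩, hFW i hx, rfl⟩
  · intro i j hij
    rw [onFun, Set.disjoint_left]
    rintro _ ⟨x, hx, rfl⟩ ⟨y, hy, hxy⟩
    have : y = x := Subtype.ext hxy
    subst this
    exact (Set.disjoint_left.1 (hWd hij)) hx hy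

theorem DiscFam.preimage_val {F : ι → Set X} (h : DiscFam F) (U : Set X) :
    DiscFam (fun i => ((↑) ⁻¹' F i : Set U)) := by
  intro x
  obtain ⟨V, hV, h1⟩ := h x.1
  refine ⟨Subtype.val ⁻¹' V, continuous_subtype_val.continuousAt.preimage_mem_nhds hV, ?_⟩
  rintro i j ⟨y, hy1, hy2⟩ ⟨z, hz1, hz2⟩
  exact h1 i j ⟨y.1, hy1, hy2⟩ ⟨z.1, hz1, hz2⟩

/-- A Lindelöf set is covered by countably many good compact sets. -/
theorem exists_pieces {U : ℕ → Set X} (φ : ∀ m, Flow ℝ (U m))
    (hgood : ∀ x ∈ ⋃ m, U m, ∃ m, ∃ K : Set (U m), IsCompact K ∧ Good (φ m) K ∧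
      Subtype.val '' K ∈ 𝓝 x) {F : Set X} (hF : IsLindelof F) (hFU : F ⊆ ⋃ m, U m) :
    ∃ (m : ℕ → ℕ) (K : ∀ l, Set (U (m l))), (∀ l, IsCompact (K l)) ∧
      (∀ l, Good (φ (m l)) (K l)) ∧ F ⊆ ⋃ l, Subtype.val '' K l := by
  have h1 : ∀ x : X, ∃ (m : ℕ) (K : Set (U m)), IsCompact K ∧ Good (φ m) K ∧
      (x ∈ F → Subtype.val '' K ∈ 𝓝 x) := by
    intro x
    by_cases hx : x ∈ F
    · obtain ⟨m, K, h2, h3, h4⟩ := hgood x (hFU hx)
      exact ⟨m, K, h2, h3, fun _ => h4⟩
    · exact ⟨0, ∅, isCompact_empty, good_empty _, fun h => absurd h hx⟩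
  choose m K hK1 hK2 hK3 using h1
  obtain ⟨t, htc, htF, hcov⟩ := hF.elim_nhds_subcover (fun x => Subtype.val '' K x)
    (fun x hx => hK3 x hx)
  rcases t.eq_empty_or_nonempty with h | h
  · subst h
    refine ⟨fun _ => 0, fun _ => ∅, fun _ => isCompact_empty, fun _ => good_empty _, ?_⟩
    intro x hx
    have := hcov hx
    simp at this
  · obtain ⟨g, hg⟩ := htc.exists_eq_range h
    refine ⟨fun l => m (g l), fun l => K (g l), fun l => hK1 _, fun l => hK2 _, ?_⟩
    intro x hx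
    obtain ⟨y, hy, hxy⟩ := mem_iUnion₂.1 (hcov hx)
    rw [hg] at hy
    obtain ⟨l, rfl⟩ := hy
    exact mem_iUnion.2 ⟨l, hxy⟩

/-- Families contained in the region with flows. -/
theorem sepd_of_flows_aux [T5Space X] [LocallyCompactSpace X] [LocallyConnectedSpace X]
    {U : ℕ → Set X} (hU : ∀ m, IsOpen (U m)) (φ : ∀ m, Flow ℝ (U m))
    (hφ : ∀ m, ∀ x : U m, ∃ t, φ m t x ≠ x)
    {F : ι → Set X} (hF : DiscFam F) (hc : ∀ i, IsClosed (F i)) (hL : ∀ i, IsLindelof (F i))
    (hFU : ∀ i, F i ⊆ ⋃ m, U m) : Sepd F := by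
  have : ∀ m, LocallyCompactSpace (U m) := fun m => (hU m).locallyCompactSpace
  have : ∀ m, LocallyConnectedSpace (U m) := fun m => (hU m).locallyConnectedSpace
  have hgood : ∀ x ∈ ⋃ m, U m, ∃ m, ∃ K : Set (U m), IsCompact K ∧ Good (φ m) K ∧
      Subtype.val '' K ∈ 𝓝 x := by
    intro x hx
    obtain ⟨m, hm⟩ := mem_iUnion.1 hx
    obtain ⟨K, hK, hKc, hKg⟩ := exists_good (φ m) ⟨x, hm⟩ (hφ m ⟨x, hm⟩)
    exact ⟨m, K, hKc, hKg, (hU m).isOpenMap_subtype_val.image_mem_nhds hK⟩
  choose m K hK1 hK2 hK3 using fun i => exists_pieces φ hgood (hL i) (hFU i)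
  have hpc : ∀ l i, IsCompact (Subtype.val '' K i l ∩ F i) := fun l i =>
    ((hK1 i l).image continuous_subtype_val).inter_right (hc i)
  refine sepd_of_layers hF hc (fun l i => Subtype.val '' K i l ∩ F i)
    (fun l i => (hpc l i).isClosed) (fun l i => inter_subset_right) ?_ ?_
  · intro i x hx
    obtain ⟨l, hl⟩ := mem_iUnion.1 (hK3 i hx)
    exact mem_iUnion.2 ⟨l, hl, hx⟩
  · intro l
    have hD : DiscFam (fun i => Subtype.val '' K i l ∩ F i) := hF.mono fun i => inter_subset_right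
    refine sepd_of_classes hD (fun i => (hpc l i).isClosed) (fun k => {i | m i l = k})
      (fun i => ⟨_, rfl⟩) ?_
    intro k
    have hsub : ∀ i, {x | x ∈ Subtype.val '' K i l ∩ F i ∧ i ∈ {i | m i l = k}} ⊆
        Subtype.val '' K i l ∩ F i := fun i x hx => hx.1
    apply Sepd.of_open (hU k)
    · rintro i x ⟨⟨⟨y, hy, rfl⟩, hx⟩, hi⟩
      have hi : m i l = k := hi
      subst hi
      exact y.2
    · have key : ∀ i, IsCompact ((↑) ⁻¹' {x | x ∈ Subtype.val '' K i l ∩ F i ∧
          i ∈ {i | m i l = k}} : Set (U k)) ∧ Good (φ k) ((↑) ⁻¹'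
          {x | x ∈ Subtype.val '' K i l ∩ F i ∧ i ∈ {i | m i l = k}} : Set (U k)) := by
        intro i
        by_cases h : m i l = k
        · subst h
          have h2 : ((↑) ⁻¹' {x | x ∈ Subtype.val '' K i l ∩ F i ∧ i ∈ {j | m j l = m i l}} :
              Set (U (m i l))) = K i l ∩ (↑) ⁻¹' F i := by
            ext y
            constructor
            · rintro ⟨⟨⟨z, hz, hzy⟩, hy⟩, -⟩
              have : z = y := Subtype.ext hzy
              subst this
              exact ⟨hz, hy⟩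
            · rintro ⟨hy, hy'⟩
              exact ⟨⟨⟨y, hy, rfl⟩, hy'⟩, rfl⟩
          rw [h2]
          exact ⟨(hK1 i l).inter_right ((hc i).preimage continuous_subtype_val),
            (hK2 i l).mono inter_subset_left⟩
        · have h2 : ((↑) ⁻¹' {x | x ∈ Subtype.val '' K i l ∩ F i ∧ i ∈ {i | m i l = k}} :
              Set (U k)) = ∅ := by
            ext y
            simp [h]
          rw [h2]
          exact ⟨isCompact_empty, good_empty _⟩
      exact sepd_of_good (φ k) ((hD.mono hsub).preimage_val (U k)) (fun i => (key i).1)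
        (fun i => (key i).2)

/-- Discrete families of closed sets, only countably many of which meet `C`, all others being
separated. -/
theorem sepd_of_exceptional [T1Space X] [NormalSpace X] {F : ι → Set X} (hF : DiscFam F)
    (hc : ∀ i, IsClosed (F i)) (C : Set X)
    (hC : ∀ D ⊆ C, (∀ x : X, ∃ V ∈ 𝓝 x, (V ∩ D).Subsingleton) → D.Countable)
    (hS : Sepd (fun i => {x | x ∈ F i ∧ F i ∩ C = ∅})) : Sepd F := by
  have hcount : {i | (F i ∩ C).Nonempty}.Countable := by
    have h1 : ∀ i : {i | (F i ∩ C).Nonempty}, (F i.1 ∩ C).Nonempty := fun i => i.2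
    choose g hg using h1
    have hinj : Injective g := by
      intro i j hij
      by_contra hne
      have h2 : (i : ι) ≠ j := fun h => hne (Subtype.ext h)
      exact (Set.disjoint_left.1 (hF.disjoint h2)) (hg i).1 (hij ▸ (hg j).1)
    have h2 : (range g).Countable := by
      apply hC
      · rintro _ ⟨i, rfl⟩
        exact (hg i).2
      · intro x
        obtain ⟨V, hV, h3⟩ := hF x
        refine ⟨V, hV, ?_⟩
        rintro _ ⟨hy, ⟨i, rfl⟩⟩ _ ⟨hz, ⟨j, rfl⟩⟩
        have : (i : ι) = j := h3 i.1 j.1 ⟨_, hy, (hg i).1⟩ ⟨_, hz, (hg j).1⟩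
        rw [Subtype.ext this]
    rw [← image_univ] at h2
    have h3 := countable_of_injective_of_countable_image hinj.injOn h2
    exact countable_coe_iff.1 (countable_univ_iff.1 h3)
  obtain ⟨e, he⟩ := countable_iff_exists_injOn.1 hcount
  refine sepd_of_classes hF hc
    (fun n => {i | (F i ∩ C = ∅ ∧ n = 0) ∨ ((F i ∩ C).Nonempty ∧ n = e i + 1)}) ?_ ?_
  · intro i
    rcases (F i ∩ C).eq_empty_or_nonempty with h | h
    · exact ⟨0, Or.inl ⟨h, rfl⟩⟩
    · exact ⟨e i + 1, Or.inr ⟨h, rfl⟩⟩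
  · intro n
    rcases n with _ | n
    · obtain ⟨W, hWo, hFW, hWd⟩ := hS
      refine ⟨W, hWo, ?_, hWd⟩
      rintro i x ⟨hx, hi⟩
      rcases hi with ⟨h, -⟩ | ⟨-, h⟩
      · exact hFW i ⟨hx, h⟩
      · exact absurd h (by omega)
    · classical
      refine ⟨fun i => if ((F i ∩ C).Nonempty ∧ n = e i) then univ else ∅, ?_, ?_, ?_⟩
      · intro i
        by_cases h : ((F i ∩ C).Nonempty ∧ n = e i)
        · simp [h]
        · simp [h]
      · rintro i x ⟨hx, hi⟩
        rcases hi with ⟨-, h⟩ | ⟨h, h'⟩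
        · exact absurd h (by omega)
        · have h2 : ((F i ∩ C).Nonempty ∧ n = e i) := ⟨h, by omega⟩
          simp only [h2, and_self, if_true]
          exact mem_univ x
      · intro i j hij
        rw [onFun, Set.disjoint_left]
        intro x hx hx'
        by_cases h : ((F i ∩ C).Nonempty ∧ n = e i)
        · by_cases h' : ((F j ∩ C).Nonempty ∧ n = e j)
          · exact hij (he h.1 h'.1 (h.2.symm.trans h'.2))
          · simp only [h', if_false] at hx'
            exact hx'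
        · simp only [h, if_false] at hx
          exact hx

/-- Main theorem on flows. -/
theorem sepd_of_flows [T5Space X] [LocallyCompactSpace X] [LocallyConnectedSpace X]
    {U : ℕ → Set X} (hU : ∀ m, IsOpen (U m)) (φ : ∀ m, Flow ℝ (U m))
    (hφ : ∀ m, ∀ x : U m, ∃ t, φ m t x ≠ x)
    (hC : ∀ D ⊆ (⋃ m, U m)ᶜ, (∀ x : X, ∃ V ∈ 𝓝 x, (V ∩ D).Subsingleton) → D.Countable)
    {F : ι → Set X} (hF : DiscFam F) (hc : ∀ i, IsClosed (F i)) (hL : ∀ i, IsLindelof (F i)) :
    Sepd F := by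
  apply sepd_of_exceptional hF hc _ hC
  have hsub : ∀ i, {x | x ∈ F i ∧ F i ∩ (⋃ m, U m)ᶜ = ∅} ⊆ F i := fun i x hx => hx.1
  have hcases : ∀ i, {x | x ∈ F i ∧ F i ∩ (⋃ m, U m)ᶜ = ∅} = F i ∨
      {x | x ∈ F i ∧ F i ∩ (⋃ m, U m)ᶜ = ∅} = ∅ := by
    intro i
    by_cases h : F i ∩ (⋃ m, U m)ᶜ = ∅
    · left; ext x; simp only [h, and_true]; rfl
    · right
      rw [Set.eq_empty_iff_forall_notMem]
      exact fun x hx => h hx.2
  apply sepd_of_flows_aux hU φ hφ (hF.mono hsub)
  · intro i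
    rcases hcases i with h | h
    · rw [h]; exact hc i
    · rw [h]; exact isClosed_empty
  · intro i
    rcases hcases i with h | h
    · rw [h]; exact hL i
    · rw [h]; exact isLindelof_empty
  · rintro i x ⟨hx, hi⟩
    by_contra hxU
    have : x ∈ F i ∩ (⋃ m, U m)ᶜ := ⟨hx, hxU⟩
    rw [hi] at this
    exact this

/-- If moreover disjoint families of open sets are countable, the space is collectionwise
normal. -/
theorem sepd_of_flows_ccc [T5Space X] [LocallyCompactSpace X] [LocallyConnectedSpace X]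
    {U : ℕ → Set X} (hU : ∀ m, IsOpen (U m)) (φ : ∀ m, Flow ℝ (U m))
    (hφ : ∀ m, ∀ x : U m, ∃ t, φ m t x ≠ x)
    (hC : ∀ D ⊆ (⋃ m, U m)ᶜ, (∀ x : X, ∃ V ∈ 𝓝 x, (V ∩ D).Subsingleton) → D.Countable)
    (hccc : ∀ A : Set (Set X), (∀ O ∈ A, IsOpen O ∧ O.Nonempty) → A.PairwiseDisjoint id →
      A.Countable)
    {F : ι → Set X} (hF : DiscFam F) (hc : ∀ i, IsClosed (F i)) :
    Sepd F := by
  apply sepd_of_exceptional hF hc univ
  · intro D _ hD
    have h1 : DiscFam (fun d : D => ({d.1} : Set X)) := by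
      intro x
      obtain ⟨V, hV, h2⟩ := hD x
      refine ⟨V, hV, ?_⟩
      rintro ⟨d, hd⟩ ⟨d', hd'⟩ ⟨y, hy, rfl⟩ ⟨z, hz, rfl⟩
      exact Subtype.ext (h2 ⟨hy, hd⟩ ⟨hz, hd'⟩)
    obtain ⟨W, hWo, hFW, hWd⟩ := sepd_of_flows hU φ hφ hC h1 (fun _ => isClosed_singleton)
      (fun d => isLindelof_singleton)
    have hinj : Injective W := by
      intro d d' h
      by_contra hne
      exact (Set.disjoint_left.1 (hWd hne)) (hFW d rfl) (h ▸ hFW d rfl)
    have h3 : (range W).Countable := by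
      apply hccc
      · rintro _ ⟨d, rfl⟩
        exact ⟨hWo d, ⟨d.1, hFW d rfl⟩⟩
      · rintro _ ⟨d, rfl⟩ _ ⟨d', rfl⟩ hne
        exact hWd (fun h => hne (congrArg W h))
    rw [← image_univ] at h3
    have h4 := countable_of_injective_of_countable_image hinj.injOn h3
    exact countable_coe_iff.1 (countable_univ_iff.1 h4)
  · refine ⟨fun _ => ∅, fun _ => isOpen_empty, ?_, ?_⟩
    · rintro i x ⟨hx, hi⟩
      have : x ∈ F i ∩ univ := ⟨hx, mem_univ x⟩
      rw [hi] at this
      exact this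
    · intro i j _
      simp [onFun]

end Run7.h943
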