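import Mathlib
import Pool.Agent.Run7.h943.FlowMain

set_option autoImplicit false

/-!
Families of sets covered by countably many displaced compact sets; families in closed `G_δ` sets
with compact components.
-/

namespace Run7.h943

open Set Topology Filter Function

variable {X : Type*} [TopologicalSpace X] {ι : Type*}

/-- Main theorem on sequences of homeomorphisms of open subspaces tending to the identity. -/
theorem sepd_of_homeos [T5Space X] [LocallyCompactSpace X] [LocallyConnectedSpace X]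
    {U : ℕ → Set X} (hU : ∀ m, IsOpen (U m)) (f : ∀ m, ℕ → U m ≃ₜ U m)
    (hf : ∀ m x, Tendsto (fun p : ℕ × U m => f m p.1 p.2) (atTop ×ˢ 𝓝 x) (𝓝 x))
    (hf' : ∀ m x, Tendsto (fun p : ℕ × U m => (f m p.1).symm p.2) (atTop ×ˢ 𝓝 x) (𝓝 x))
    {F : ι → Set X} (hF : DiscFam F) (hc : ∀ i, IsClosed (F i))
    (hK : ∀ i, ∃ K : ℕ → Set X, F i = ⋃ l, K l ∧ ∀ l, IsCompact (K l) ∧ ∃ m, K l ⊆ U m ∧
      ∀ᶠ n in atTop, Disjoint (f m n '' (Subtype.val ⁻¹' K l)) (Subtype.val ⁻¹' K l)) :
    Sepd F := by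
  have : ∀ m, LocallyCompactSpace (U m) := fun m => (hU m).locallyCompactSpace
  have : ∀ m, LocallyConnectedSpace (U m) := fun m => (hU m).locallyConnectedSpace
  choose K hKF hK2 using hK
  choose hKc m hKU hKd using hK2
  have hKsub : ∀ i l, K i l ⊆ F i := fun i l => by
    rw [hKF i]
    exact subset_iUnion _ l
  refine sepd_of_layers hF hc (fun l i => K i l) (fun l i => (hKc i l).isClosed)
    (fun l i => hKsub i l) (fun i => (hKF i).subset) ?_
  intro l
  have hD : DiscFam (fun i => K i l) := hF.mono fun i => hKsub i l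
  refine sepd_of_classes hD (fun i => (hKc i l).isClosed) (fun k => {i | m i l = k})
    (fun i => ⟨_, rfl⟩) ?_
  intro k
  have hsub : ∀ i, {x | x ∈ K i l ∧ i ∈ {i | m i l = k}} ⊆ K i l := fun i x hx => hx.1
  have hUk : ∀ i, {x | x ∈ K i l ∧ i ∈ {i | m i l = k}} ⊆ U k := by
    rintro i x ⟨hx, hi⟩
    have hi : m i l = k := hi
    subst hi
    exact hKU i l hx
  have hcases : ∀ i, (m i l = k ∧ {x | x ∈ K i l ∧ i ∈ {i | m i l = k}} = K i l) ∨
      {x | x ∈ K i l ∧ i ∈ {i | m i l = k}} = ∅ := by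
    intro i
    by_cases h : m i l = k
    · left
      refine ⟨h, ?_⟩
      ext x
      exact ⟨fun hx => hx.1, fun hx => ⟨hx, h⟩⟩
    · right
      rw [Set.eq_empty_iff_forall_notMem]
      exact fun x hx => h hx.2
  apply Sepd.of_open (hU k) hUk
  refine sepd_of_displaced ((hD.mono hsub).preimage_val (U k)) ?_ (fun _ n => f k n)
    (fun _ => hf k) (fun _ => hf' k) ?_
  · intro i
    rw [IsInducing.subtypeVal.isCompact_preimage_iff (by
      rw [Subtype.range_coe]
      exact hUk i)]
    rcases hcases i with ⟨-, h⟩ | h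
    · rw [h]
      exact hKc i l
    · rw [h]
      exact isCompact_empty
  · intro i
    refine ⟨0, ?_⟩
    rcases hcases i with ⟨h1, h⟩ | h
    · rw [h]
      subst h1
      exact hKd i l
    · rw [h]
      simp

/-- Families covered by countably many closed `G_δ` sets with compact components. -/
theorem sepd_of_gδ_cover [T1Space X] [NormalSpace X] [LocallyCompactSpace X]
    [LocallyConnectedSpace X]
    {F : ι → Set X} (hF : DiscFam F) (hc : ∀ i, IsClosed (F i)) {Z : ℕ → Set X}
    (hZ : ∀ m, IsClosed (Z m)) (hG : ∀ m, IsGδ (Z m)) (hFZ : ∀ i, F i ⊆ ⋃ m, Z m)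
    (hcomp : ∀ m, ∀ x ∈ Z m, x ∈ ⋃ i, F i → IsCompact (connectedComponentIn (Z m) x)) :
    Sepd F := by
  have : T4Space X := ⟨⟩
  refine sepd_of_layers hF hc (fun m i => F i ∩ Z m) (fun m i => (hc i).inter (hZ m))
    (fun m i => inter_subset_left) ?_ ?_
  · intro i x hx
    obtain ⟨m, hm⟩ := mem_iUnion.1 (hFZ i hx)
    exact mem_iUnion.2 ⟨m, hx, hm⟩
  · intro m
    refine sepd_of_gδ (hF.mono fun i => inter_subset_left) (fun i => (hc i).inter (hZ m))
      (hZ m) (hG m) (fun i => inter_subset_right) ?_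
    rintro i x ⟨hx, hx'⟩
    exact hcomp m x hx' (mem_iUnion.2 ⟨i, hx⟩)

end Run7.h943
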